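import Mathlib
import Pool.Agent.TH198.AT.Stmts

/-!
# The de Almeida–Thouless line: assembly (piece AT-MAIN)

Written by helper324 for helper198 (job 4996). From the first order optimality (`St_CORE`), the
explicit solution (`St_F0`), the two phases of the lower bound (`St_PH1`, `St_PH2`) and the
regularity of the intermediate function (`St_G`) we get `St_MAIN`.
-/

set_option autoImplicit false

open MeasureTheory ProbabilityTheory Set

namespace Pool.TH198.AT.MainAux

lemma E1_neg (F : ℝ → ℝ) : E1 (fun z => F (-z)) = E1 F := by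
  unfold E1
  have h : (gaussianReal 0 1).map (MeasurableEquiv.neg ℝ) = gaussianReal 0 1 := by
    have := gaussianReal_map_neg (μ := 0) (v := 1)
    rw [neg_zero] at this
    exact this
  conv_rhs => rw [← h]
  rw [integral_map_equiv]
  rfl

lemma sech_pos (x : ℝ) : 0 < sech x := inv_pos.2 (Real.cosh_pos x)

lemma sech_le_one (x : ℝ) : sech x ≤ 1 := inv_le_one_of_one_le₀ (Real.one_le_cosh x)

lemma cont_sech : Continuous sech := Real.continuous_cosh.inv₀ fun x => (Real.cosh_pos x).ne'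

lemma cont_tanh : Continuous Real.tanh := by
  have h : Real.tanh = fun x => Real.sinh x / Real.cosh x := by
    funext x
    exact Real.tanh_eq_sinh_div_cosh x
  rw [h]
  exact Real.continuous_sinh.div Real.continuous_cosh fun x => (Real.cosh_pos x).ne'

lemma cont_E1 {X : Type*} [TopologicalSpace X] [FirstCountableTopology X] (g : X → ℝ → ℝ) (C : ℝ)
    (hg : Continuous (fun p : X × ℝ => g p.1 p.2)) (hC : ∀ x y, |g x y| ≤ C) :
    Continuous (fun x => E1 (g x)) := by
  unfold E1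
  refine continuous_of_dominated (bound := fun _ => C) ?_ ?_ (integrable_const C) ?_
  · intro x
    exact (hg.comp (Continuous.prodMk_right x)).aestronglyMeasurable
  · intro x
    exact ae_of_all _ fun y => by rw [Real.norm_eq_abs]; exact hC x y
  · exact ae_of_all _ fun y => hg.comp (Continuous.prodMk_left y)

lemma E1_abs {F : ℝ → ℝ} {C : ℝ} (h : ∀ x, |F x| ≤ C) : |E1 F| ≤ C := by
  unfold E1
  have h1 := norm_integral_le_of_norm_le_const (μ := gaussianReal 0 1) (f := F) (C := C)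
    (ae_of_all _ fun x => by rw [Real.norm_eq_abs]; exact h x)
  rw [Real.norm_eq_abs] at h1
  refine h1.trans (le_of_eq ?_)
  rw [probReal_univ, mul_one]

/-- the conditional expectation, with a nonnegative time -/
lemma KK_nonneg_le {w x : ℝ} (hw : 0 ≤ w) : |KK w x| ≤ 1 := by
  unfold KK
  have h1 : |E1 (fun y => sech (x + √w * y))| ≤ 1 :=
    E1_abs fun y => by rw [abs_of_pos (sech_pos _)]; exact sech_le_one _
  have h2 : 0 ≤ E1 (fun y => sech (x + √w * y)) :=
    integral_nonneg fun y => (sech_pos _).le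
  have h3 : Real.exp (-w / 2) ≤ 1 := Real.exp_le_one_iff.2 (by linarith)
  have h4 : 0 ≤ Real.exp (-w / 2) * sech x * E1 (fun y => sech (x + √w * y)) :=
    mul_nonneg (mul_nonneg (Real.exp_pos _).le (sech_pos _).le) h2
  have h5 : Real.exp (-w / 2) * sech x * E1 (fun y => sech (x + √w * y)) ≤ 1 := by
    rw [abs_of_nonneg h2] at h1
    have h6 : Real.exp (-w / 2) * sech x ≤ 1 :=
      mul_le_one₀ h3 (sech_pos _).le (sech_le_one _)
    exact mul_le_one₀ h6 h2 h1
  rw [abs_le]
  constructor <;> linarith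

lemma cont_KK : Continuous (fun p : ℝ × ℝ => KK p.1 p.2) := by
  unfold KK
  have h1 : Continuous (fun p : ℝ × ℝ => E1 (fun y => sech (p.2 + √p.1 * y))) := by
    refine cont_E1 (fun (p : ℝ × ℝ) y => sech (p.2 + √p.1 * y)) 1 ?_ ?_
    · exact cont_sech.comp (by fun_prop)
    · intro p y
      rw [abs_of_pos (sech_pos _)]
      exact sech_le_one _
  have h2 : Continuous (fun p : ℝ × ℝ => sech p.2) := cont_sech.comp continuous_snd
  fun_prop

/-- the weight `KK` along the path, for times after `q` -/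
noncomputable def Kf (β h q r z : ℝ) : ℝ :=
  KK (2 * β ^ 2 * max (r - q) 0) (h + √(2 * β ^ 2 * q) * z)

lemma Kf_abs (β h q r z : ℝ) : |Kf β h q r z| ≤ 1 :=
  KK_nonneg_le (by positivity)

lemma cont_Kf (β h q : ℝ) : Continuous (fun p : ℝ × ℝ => Kf β h q p.1 p.2) := by
  exact cont_KK.comp (f := fun p : ℝ × ℝ =>
    (2 * β ^ 2 * max (p.1 - q) 0, h + √(2 * β ^ 2 * q) * p.2)) (by fun_prop)

noncomputable def Ph (β h q r : ℝ) : ℝ := E1 (fun z => Kf β h q r z)

lemma cont_Ph (β h q : ℝ) : Continuous (Ph β h q) :=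
  cont_E1 (fun r z => Kf β h q r z) 1 (cont_Kf β h q) (fun r z => Kf_abs β h q r z)

lemma Ph_eq {β h q r : ℝ} (hr : q ≤ r) : Ph β h q r = phi β h q r := by
  unfold phi Ph Kf V KK
  rw [if_neg (not_lt.2 hr), max_eq_left (sub_nonneg.2 hr)]
  simp only [pow_one]
  have h1 : ∀ z : ℝ, 1 - Real.exp (-(2 * β ^ 2 * (r - q)) / 2) * sech (h + √(2 * β ^ 2 * q) * z) *
      E1 (fun y => sech (h + √(2 * β ^ 2 * q) * z + √(2 * β ^ 2 * (r - q)) * y)) =
      1 - Real.exp (-(2 * β ^ 2 * (r - q)) / 2) * (sech (h + √(2 * β ^ 2 * q) * z) *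
      E1 (fun y => sech (h + √(2 * β ^ 2 * q) * z + √(2 * β ^ 2 * (r - q)) * y))) := by
    intro z
    ring
  simp only [h1]
  have h2 : Continuous (fun z : ℝ => sech (h + √(2 * β ^ 2 * q) * z) *
      E1 (fun y => sech (h + √(2 * β ^ 2 * q) * z + √(2 * β ^ 2 * (r - q)) * y))) := by
    refine Continuous.mul (cont_sech.comp (by fun_prop)) ?_
    refine cont_E1 (fun z y => sech (h + √(2 * β ^ 2 * q) * z + √(2 * β ^ 2 * (r - q)) * y)) 1 ?_ ?_
    · exact cont_sech.comp (by fun_prop)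
    · intro z y
      rw [abs_of_pos (sech_pos _)]
      exact sech_le_one _
  have h3 : Integrable (fun z : ℝ => sech (h + √(2 * β ^ 2 * q) * z) *
      E1 (fun y => sech (h + √(2 * β ^ 2 * q) * z + √(2 * β ^ 2 * (r - q)) * y)))
      (gaussianReal 0 1) := by
    refine Integrable.of_bound h2.aestronglyMeasurable 1 (ae_of_all _ fun z => ?_)
    rw [norm_mul, Real.norm_eq_abs, Real.norm_eq_abs, abs_of_pos (sech_pos _)]
    refine mul_le_one₀ (sech_le_one _) (abs_nonneg _) ?_
    exact E1_abs fun y => by rw [abs_of_pos (sech_pos _)]; exact sech_le_one _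
  show (∫ z, (1 - Real.exp (-(2 * β ^ 2 * (r - q)) / 2) * (sech (h + √(2 * β ^ 2 * q) * z) *
      E1 (fun y => sech (h + √(2 * β ^ 2 * q) * z + √(2 * β ^ 2 * (r - q)) * y))))
      ∂(gaussianReal 0 1)) = _
  rw [integral_sub (integrable_const _) (h3.const_mul _), integral_const_mul]
  simp [E1]

/-- the expectation before `q` -/
noncomputable def psi (β h q r : ℝ) : ℝ :=
  E1 (fun z => (E1 (fun y =>
    Real.tanh (h + √(2 * β ^ 2 * r) * z + √(2 * β ^ 2 * (q - r)) * y))) ^ 2)

lemma cont_psi (β h q : ℝ) : Continuous (psi β h q) := by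
  have hin : Continuous (fun p : ℝ × ℝ => E1 (fun y =>
      Real.tanh (h + √(2 * β ^ 2 * p.1) * p.2 + √(2 * β ^ 2 * (q - p.1)) * y))) := by
    refine cont_E1 (fun (p : ℝ × ℝ) y =>
      Real.tanh (h + √(2 * β ^ 2 * p.1) * p.2 + √(2 * β ^ 2 * (q - p.1)) * y)) 1 ?_ ?_
    · exact cont_tanh.comp (by fun_prop)
    · intro p y
      exact (Real.abs_tanh_lt_one _).le
  refine cont_E1 (fun r z => (E1 (fun y =>
    Real.tanh (h + √(2 * β ^ 2 * r) * z + √(2 * β ^ 2 * (q - r)) * y))) ^ 2) 1 (hin.pow 2) ?_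
  intro r z
  rw [abs_pow]
  refine pow_le_one₀ (abs_nonneg _) (E1_abs fun y => (Real.abs_tanh_lt_one _).le)

lemma psi_eq {β h q r : ℝ} (hr : r < q) : psi β h q r = phi β h q r := by
  unfold phi psi
  rw [if_pos hr]

/-- extension of a distribution function -/
lemma exists_ext {ζ : ℝ → ℝ} (hζ : IsCdf ζ) : ∃ ζe : ℝ → ℝ, Measurable ζe ∧
    (∀ r, 0 ≤ ζe r ∧ ζe r ≤ 1) ∧ ∀ r ∈ Icc (0 : ℝ) 1, ζe r = ζ r := by
  obtain ⟨h1, h2, _, _⟩ := hζ
  refine ⟨IccExtend (zero_le_one (α := ℝ)) (fun x => ζ x), ?_, ?_, ?_⟩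
  · refine Monotone.measurable (Monotone.IccExtend _ ?_)
    intro x y hxy
    exact h1 x.2 y.2 hxy
  · intro r
    unfold IccExtend
    exact h2 _ (projIcc (0 : ℝ) 1 zero_le_one r).2
  · intro r hr
    exact IccExtend_of_mem _ _ hr

/-- Fubini -/
lemma fub {β h q : ℝ} {ζ : ℝ → ℝ} (hq0 : 0 ≤ q) (hq1 : q ≤ 1) (hζ : IsCdf ζ) :
    E1 (fun z => ∫ r in q..1, (ζ r - 1) * KK (2 * β ^ 2 * (r - q)) (h + √(2 * β ^ 2 * q) * z)) =
      ∫ r in q..1, (ζ r - 1) * Ph β h q r ∧
    Integrable (fun z => ∫ r in q..1, (ζ r - 1) *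
      KK (2 * β ^ 2 * (r - q)) (h + √(2 * β ^ 2 * q) * z)) (gaussianReal 0 1) := by
  obtain ⟨ζe, he1, he2, he3⟩ := exists_ext hζ
  have h1 : ∀ z : ℝ, (∫ r in q..1, (ζ r - 1) *
      KK (2 * β ^ 2 * (r - q)) (h + √(2 * β ^ 2 * q) * z)) =
      ∫ r in Ioc q 1, (ζe r - 1) * Kf β h q r z := by
    intro z
    rw [intervalIntegral.integral_of_le hq1]
    refine setIntegral_congr_fun measurableSet_Ioc fun r hr => ?_
    rw [he3 r ⟨hq0.trans hr.1.le, hr.2⟩]
    unfold Kf
    rw [max_eq_left (sub_nonneg.2 hr.1.le)]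
  have h2 : Integrable (Function.uncurry fun (z r : ℝ) => (ζe r - 1) * Kf β h q r z)
      ((gaussianReal 0 1).prod (volume.restrict (Ioc q 1))) := by
    refine Integrable.of_bound ?_ 1 (ae_of_all _ fun p => ?_)
    · refine Measurable.aestronglyMeasurable ?_
      refine Measurable.mul ((he1.comp measurable_snd).sub_const 1) ?_
      exact ((cont_Kf β h q).comp (continuous_snd.prodMk continuous_fst)).measurable
    · show ‖(ζe p.2 - 1) * Kf β h q p.2 p.1‖ ≤ 1
      rw [norm_mul, Real.norm_eq_abs, Real.norm_eq_abs]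
      refine mul_le_one₀ ?_ (abs_nonneg _) (Kf_abs _ _ _ _ _)
      rw [abs_le]
      have := he2 p.2
      constructor <;> linarith [this.1, this.2]
  constructor
  · simp only [h1]
    have h3 := integral_integral_swap h2
    unfold E1
    rw [h3, intervalIntegral.integral_of_le hq1]
    refine setIntegral_congr_fun measurableSet_Ioc fun r hr => ?_
    rw [integral_const_mul, he3 r ⟨hq0.trans hr.1.le, hr.2⟩]
    rfl
  · simp only [h1]
    exact h2.integral_prod_left

lemma logcosh_abs (x : ℝ) : |Real.log (Real.cosh x)| ≤ |x| := by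
  rw [abs_of_nonneg (Real.log_nonneg (Real.one_le_cosh x))]
  have h1 : Real.cosh x ≤ Real.exp |x| := by
    rw [Real.cosh_eq]
    have h2 : Real.exp x ≤ Real.exp |x| := Real.exp_le_exp.2 (le_abs_self x)
    have h3 : Real.exp (-x) ≤ Real.exp |x| := Real.exp_le_exp.2 (neg_le_abs x)
    linarith
  have h4 := Real.log_le_log (Real.cosh_pos x) h1
  rwa [Real.log_exp] at h4

lemma cont_logcosh : Continuous (fun x : ℝ => Real.log (Real.cosh x)) :=
  Real.continuous_cosh.log fun x => (Real.cosh_pos x).ne'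

lemma int_logcosh (h σ : ℝ) :
    Integrable (fun y : ℝ => Real.log (Real.cosh (h + σ * y))) (gaussianReal 0 1) := by
  have h1 : Integrable (fun y : ℝ => |h| + |σ| * |y|) (gaussianReal 0 1) := by
    have h2 : Integrable (fun y : ℝ => y) (gaussianReal 0 1) :=
      memLp_one_iff_integrable.1 (memLp_id_gaussianReal (μ := 0) (v := 1) 1)
    exact (integrable_const _).add (h2.abs.const_mul _)
  refine h1.mono' (cont_logcosh.comp (by fun_prop)).aestronglyMeasurable (ae_of_all _ fun y => ?_)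
  rw [Real.norm_eq_abs]
  refine (logcosh_abs _).trans ((abs_add_le _ _).trans ?_)
  rw [abs_mul]

lemma f0_zero (β q h : ℝ) (hq0 : 0 ≤ q) : f0 β q 0 h =
    E1 (fun y => Real.log (Real.cosh (h + √(2 * β ^ 2 * q) * y))) + β ^ 2 * (1 - q) := by
  unfold f0
  split_ifs with h1
  · have h2 : q = 0 := le_antisymm h1 hq0
    subst h2
    simp [E1]
  · rw [sub_zero]

lemma cdf_one {q : ℝ} (hq1 : q ≤ 1) : IsCdf (one q) := by
  refine ⟨?_, ?_, ?_, ?_⟩
  · intro x _ y _ hxy
    unfold one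
    split_ifs with h1 h2 <;> first | exact le_rfl | exact zero_le_one | exact absurd (h1.trans hxy) h2
  · intro t _
    unfold one
    split_ifs <;> norm_num
  · unfold one
    rw [if_pos hq1]
  · intro t _
    by_cases h : q ≤ t
    · have h1 : EqOn (one q) (fun _ => 1) (Ici t) := by
        intro x hx
        unfold one
        rw [if_pos (h.trans hx)]
      exact (continuousWithinAt_const (b := (1 : ℝ))).congr h1 (h1 self_mem_Ici)
    · have h2 : one q =ᶠ[nhds t] fun _ => 0 := by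
        filter_upwards [Iio_mem_nhds (not_le.1 h)] with x hx
        unfold one
        rw [if_neg (not_le.2 hx)]
      exact (continuousAt_const.congr h2.symm).continuousWithinAt

/-- the theorem for `h ≥ 0` (only the first order conditions are used) -/
lemma main_pos (hPH1 : St_PH1) (hPH2 : St_PH2) (hG : St_G) {β h q : ℝ} (hβ : 0 < β)
    (hq0 : 0 ≤ q) (hq1 : q ≤ 1)
    (hc : (∀ t : ℝ, 0 ≤ t → t < q → t ≤ phi β h q t) ∧
      (∀ t : ℝ, q ≤ t → t ≤ 1 → phi β h q t ≤ t)) {ζ : ℝ → ℝ} {f : ℝ → ℝ → ℝ} (hζ : IsCdf ζ)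
    (hf : IsParisi β ζ f) : PF β h (one q) (f0 β q) ≤ PF β h ζ f := by
  obtain ⟨G1, G2, hG12⟩ := hG β q ζ hβ hq0 hq1 hζ
  have hb := hPH2 β q ζ f _ G1 G2 hβ hq0 hq1 hζ hf hG12 (hPH1 β q ζ f hβ hq0 hq1 hζ hf) h
  obtain ⟨hfub, hint⟩ := fub (β := β) (h := h) hq0 hq1 hζ
  have hE : E1 (fun y => Real.log (Real.cosh (h + √(2 * β ^ 2 * q) * y)) + β ^ 2 * (1 - q) +
      β ^ 2 * (∫ r in q..1, (ζ r - 1) * KK (2 * β ^ 2 * (r - q)) (h + √(2 * β ^ 2 * q) * y))) =
      f0 β q 0 h + β ^ 2 * ∫ r in q..1, (ζ r - 1) * Ph β h q r := by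
    rw [f0_zero β q h hq0, ← hfub]
    have I1 : Integrable (fun y : ℝ => Real.log (Real.cosh (h + √(2 * β ^ 2 * q) * y)) +
        β ^ 2 * (1 - q)) (gaussianReal 0 1) := (int_logcosh h _).add (integrable_const _)
    unfold E1
    rw [integral_add I1 (hint.const_mul _), integral_add (int_logcosh h _) (integrable_const _),
      integral_const, probReal_univ, one_smul, integral_const_mul]
  have hζi : ∀ a b : ℝ, 0 ≤ a → a ≤ 1 → 0 ≤ b → b ≤ 1 → IntervalIntegrable ζ volume a b := by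
    intro a b ha ha1 hb hb1
    refine MonotoneOn.intervalIntegrable (hζ.1.mono ?_)
    intro x hx
    rw [mem_uIcc] at hx
    rcases hx with hx | hx <;> exact ⟨by linarith [hx.1], by linarith [hx.2]⟩
  have i1 : IntervalIntegrable (fun r => ζ r * psi β h q r) volume 0 q :=
    (hζi 0 q le_rfl zero_le_one hq0 hq1).mul_continuousOn (cont_psi β h q).continuousOn
  have i2 : IntervalIntegrable (fun r => ζ r * r) volume 0 q :=
    (hζi 0 q le_rfl zero_le_one hq0 hq1).mul_continuousOn continuous_id.continuousOn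
  have i3 : IntervalIntegrable (fun r => (ζ r - 1) * Ph β h q r) volume q 1 :=
    ((hζi q 1 hq0 hq1 zero_le_one le_rfl).sub intervalIntegrable_const).mul_continuousOn
      (cont_Ph β h q).continuousOn
  have i4 : IntervalIntegrable (fun r => (ζ r - 1) * r) volume q 1 :=
    ((hζi q 1 hq0 hq1 zero_le_one le_rfl).sub intervalIntegrable_const).mul_continuousOn
      continuous_id.continuousOn
  have i5 : IntervalIntegrable (fun r => ζ r * r) volume q 1 :=
    (hζi q 1 hq0 hq1 zero_le_one le_rfl).mul_continuousOn continuous_id.continuousOn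
  have j1 : ∫ r in (0 : ℝ)..q, ζ r * r ≤ ∫ r in (0 : ℝ)..q, ζ r * psi β h q r := by
    refine intervalIntegral.integral_mono_on_of_le_Ioo hq0 i2 i1 fun r hr => ?_
    have h1 := hc.1 r hr.1.le hr.2
    rw [← psi_eq hr.2] at h1
    exact mul_le_mul_of_nonneg_left h1 (hζ.2.1 r ⟨hr.1.le, hr.2.le.trans hq1⟩).1
  have j2 : ∫ r in q..1, (ζ r - 1) * r ≤ ∫ r in q..1, (ζ r - 1) * Ph β h q r := by
    refine intervalIntegral.integral_mono_on_of_le_Ioo hq1 i4 i3 fun r hr => ?_
    have h1 := hc.2 r hr.1.le hr.2.le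
    rw [← Ph_eq hr.1.le] at h1
    have h2 := (hζ.2.1 r ⟨hq0.trans hr.1.le, hr.2.le⟩).2
    nlinarith
  have j3 : ∫ r in q..1, (ζ r - 1) * r = (∫ r in q..1, ζ r * r) - ∫ r in q..1, r := by
    have i6 : IntervalIntegrable (fun r : ℝ => r) volume q 1 :=
      continuous_id.intervalIntegrable q 1
    rw [← intervalIntegral.integral_sub i5 i6]
    refine intervalIntegral.integral_congr fun r _ => ?_
    show (ζ r - 1) * r = ζ r * r - r
    ring
  have j4 : ∫ r in (0 : ℝ)..1, ζ r * r = (∫ r in (0 : ℝ)..q, ζ r * r) + ∫ r in q..1, ζ r * r :=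
    (intervalIntegral.integral_add_adjacent_intervals i2 i5).symm
  have k1 : IntervalIntegrable (fun r => one q r * r) volume 0 q := by
    have h1 : IntervalIntegrable (one q) volume 0 q := by
      refine MonotoneOn.intervalIntegrable ((cdf_one hq1).1.mono ?_)
      intro x hx
      rw [uIcc_of_le hq0] at hx
      exact ⟨hx.1, hx.2.trans hq1⟩
    exact h1.mul_continuousOn continuous_id.continuousOn
  have k2 : IntervalIntegrable (fun r => one q r * r) volume q 1 := by
    have h1 : IntervalIntegrable (one q) volume q 1 := by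
      refine MonotoneOn.intervalIntegrable ((cdf_one hq1).1.mono ?_)
      intro x hx
      rw [uIcc_of_le hq1] at hx
      exact ⟨hq0.trans hx.1, hx.2⟩
    exact h1.mul_continuousOn continuous_id.continuousOn
  have j5 : ∫ r in (0 : ℝ)..1, one q r * r = ∫ r in q..1, r := by
    rw [← intervalIntegral.integral_add_adjacent_intervals k1 k2]
    have h1 : ∫ r in (0 : ℝ)..q, one q r * r = 0 := by
      have h2 : ∫ r in (0 : ℝ)..q, one q r * r ≤ ∫ r in (0 : ℝ)..q, (0 : ℝ) :=
        intervalIntegral.integral_mono_on_of_le_Ioo hq0 k1 intervalIntegrable_const fun r hr => by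
          unfold one
          rw [if_neg (not_le.2 hr.2), zero_mul]
      have h3 : ∫ r in (0 : ℝ)..q, (0 : ℝ) ≤ ∫ r in (0 : ℝ)..q, one q r * r :=
        intervalIntegral.integral_mono_on_of_le_Ioo hq0 intervalIntegrable_const k1 fun r hr => by
          unfold one
          rw [if_neg (not_le.2 hr.2), zero_mul]
      rw [intervalIntegral.integral_zero] at h2 h3
      exact le_antisymm h2 h3
    rw [h1, zero_add]
    refine intervalIntegral.integral_congr fun r hr => ?_
    rw [uIcc_of_le hq1] at hr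
    show one q r * r = r
    unfold one
    rw [if_pos hr.1, one_mul]
  have hb' : f0 β q 0 h + β ^ 2 * (∫ r in q..1, (ζ r - 1) * Ph β h q r) +
      β ^ 2 * (∫ r in (0 : ℝ)..q, ζ r * psi β h q r) ≤ f 0 h := by
    rw [← hE]
    exact hb
  unfold PF
  rw [j4, j5]
  have hβ2 : 0 ≤ β ^ 2 := sq_nonneg β
  have l1 := mul_le_mul_of_nonneg_left j1 hβ2
  have l2 := mul_le_mul_of_nonneg_left j2 hβ2
  rw [j3] at l2
  nlinarith [l1, l2, hb']

lemma refl_parisi {β : ℝ} {ζ : ℝ → ℝ} {f : ℝ → ℝ → ℝ} (hf : IsParisi β ζ f) :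
    IsParisi β ζ (fun t x => f t (-x)) := by
  obtain ⟨fx, fxx, h1, h2, h3, ⟨C, h4⟩, h5⟩ := hf
  refine ⟨fun t x => -fx t (-x), fun t x => fxx t (-x), ?_, ?_, ?_, ⟨C, ?_⟩, ?_⟩
  · intro t ht x
    obtain ⟨g1, g2⟩ := h1 t ht (-x)
    constructor
    · have h6 := g1.comp x (hasDerivAt_neg x)
      rw [mul_neg_one] at h6
      exact h6
    · have h6 := (g2.comp x (hasDerivAt_neg x)).neg
      rw [mul_neg_one, neg_neg] at h6
      exact h6
  · refine (h2.comp (f := fun p : ℝ × ℝ => (p.1, -p.2)) (by fun_prop) ?_).neg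
    intro p hp
    exact ⟨hp.1, mem_univ _⟩
  · refine h3.comp (f := fun p : ℝ × ℝ => (p.1, -p.2)) (by fun_prop) ?_
    intro p hp
    exact ⟨hp.1, mem_univ _⟩
  · intro t ht x
    rw [abs_neg]
    exact h4 t ht (-x)
  · intro t ht x
    have h6 := h5 t ht (-x)
    rw [Real.cosh_neg] at h6
    show f t (-x) = _
    rw [h6]
    simp only [neg_sq]

lemma f0_neg (β q h : ℝ) (hq0 : 0 ≤ q) : f0 β q 0 (-h) = f0 β q 0 h := by
  rw [f0_zero β q _ hq0, f0_zero β q _ hq0,
    ← E1_neg (fun y => Real.log (Real.cosh (h + √(2 * β ^ 2 * q) * y)))]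
  congr 2
  funext y
  rw [← Real.cosh_neg (-h + _)]
  congr 2
  ring

lemma dat_neg {β h q : ℝ} (hd : DAT β h q) : DAT β (-h) q := by
  obtain ⟨h1, h2, h3⟩ := hd
  have e1 : E1 (fun z => Real.tanh (β * z * √(2 * q) + -h) ^ 2) =
      E1 (fun z => Real.tanh (β * z * √(2 * q) + h) ^ 2) := by
    rw [← E1_neg (fun z => Real.tanh (β * z * √(2 * q) + h) ^ 2)]
    congr 1
    funext z
    rw [show β * z * √(2 * q) + -h = -(β * -z * √(2 * q) + h) by ring, Real.tanh_neg, neg_sq]
  have e2 : E1 (fun z => sech (β * z * √(2 * q) + -h) ^ 4) =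
      E1 (fun z => sech (β * z * √(2 * q) + h) ^ 4) := by
    rw [← E1_neg (fun z => sech (β * z * √(2 * q) + h) ^ 4)]
    congr 1
    funext z
    rw [show β * z * √(2 * q) + -h = -(β * -z * √(2 * q) + h) by ring]
    unfold sech
    rw [Real.cosh_neg]
  exact ⟨h1, by rw [e1]; exact h2, by rw [e2]; exact h3⟩

lemma dat_le_one {β h q : ℝ} (hd : DAT β h q) : q ≤ 1 := by
  obtain ⟨_, h2, _⟩ := hd
  have h3 : |E1 (fun z => Real.tanh (β * z * √(2 * q) + h) ^ 2)| ≤ 1 := E1_abs fun z => by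
    rw [abs_pow]
    exact pow_le_one₀ (abs_nonneg _) (Real.abs_tanh_lt_one _).le
  rw [← h2] at h3
  exact (le_abs_self q).trans h3

end Pool.TH198.AT.MainAux

namespace Pool.TH198.AT

open MainAux

/-- **AT-MAIN**: assembly. -/
theorem t_MAIN (hCORE : St_CORE) (hF0 : St_F0) (hPH1 : St_PH1) (hPH2 : St_PH2) (hG : St_G) :
    St_MAIN := by
  intro β h q hβ hd
  have hq0 := hd.1
  have hq1 := dat_le_one hd
  refine ⟨cdf_one hq1, hF0 β q hβ hq0 hq1, fun ζ f hζ hf => ?_⟩
  rcases le_or_gt 0 h with hh | hh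
  · exact main_pos hPH1 hPH2 hG hβ hq0 hq1 (hCORE β h q hβ hh hd) hζ hf
  · have h1 := main_pos hPH1 hPH2 hG hβ hq0 hq1
      (hCORE β (-h) q hβ (by linarith) (dat_neg hd)) hζ (refl_parisi hf)
    unfold PF at h1 ⊢
    rw [f0_neg β q h hq0] at h1
    simpa using h1

end Pool.TH198.AT
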